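import Mathlib
import Pool.Agent.R188.ZF.Defs

set_option autoImplicit false

namespace Pool.Agent.H78.Ft

open Finset Pool.Agent.R188.ZF

abbrev Gd : Type := Fin 3 × Fin 2
abbrev V51 : Type := Fin 3 ⊕ (Gd × Fin 8)

/-- The edges inside one gadget: the ladder `P₂ □ P₄` with paths `0123` and `4567`, and one
diagonal `16`. -/
def edgeB (k l : Fin 8) : Bool :=
  (k, l) ∈ ([(0, 1), (1, 0), (1, 2), (2, 1), (2, 3), (3, 2), (4, 5), (5, 4), (5, 6), (6, 5),
    (6, 7), (7, 6), (0, 4), (4, 0), (1, 5), (5, 1), (2, 6), (6, 2), (3, 7), (7, 3),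
    (1, 6), (6, 1)] : List (Fin 8 × Fin 8))

/-- The edges between the terminals and a gadget. -/
def toC (i : Fin 3) (g : Gd) (k : Fin 8) : Bool :=
  (decide (i = g.1) && (decide (k = 1) || decide (k = 2))) ||
    (decide (i = g.1 + 1) && (decide (k = 5) || decide (k = 6)))

def adjB : V51 → V51 → Bool
  | Sum.inl _, Sum.inl _ => false
  | Sum.inl i, Sum.inr (g, k) => toC i g k
  | Sum.inr (g, k), Sum.inl i => toC i g k
  | Sum.inr (g, k), Sum.inr (h, l) => decide (g = h) && edgeB k l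

theorem edgeB_symm : ∀ k l, edgeB k l = edgeB l k := by decide
theorem edgeB_irr : ∀ k, edgeB k k = false := by decide

theorem adjB_symm (a b : V51) : adjB a b = adjB b a := by
  match a, b with
  | Sum.inl _, Sum.inl _ => rfl
  | Sum.inl i, Sum.inr (g, k) => rfl
  | Sum.inr (g, k), Sum.inl i => rfl
  | Sum.inr (g, k), Sum.inr (h, l) =>
    show (decide (g = h) && edgeB k l) = (decide (h = g) && edgeB l k)
    rw [edgeB_symm k l]
    by_cases e : g = h
    · subst e; rfl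
    · have e' : ¬ h = g := fun x => e x.symm
      simp [e, e']

theorem adjB_irr (a : V51) : adjB a a = false := by
  match a with
  | Sum.inl _ => rfl
  | Sum.inr (g, k) =>
    show (decide (g = g) && edgeB k k) = false
    rw [edgeB_irr k]; simp

/-- The graph with 51 vertices. -/
def G51 : SimpleGraph V51 where
  Adj a b := adjB a b = true
  symm := ⟨by
    intro a b hab
    rw [adjB_symm b a]
    exact hab⟩
  loopless := ⟨by
    intro a ha
    rw [adjB_irr a] at ha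
    exact Bool.noConfusion ha⟩

instance : DecidableRel G51.Adj := fun a b => inferInstanceAs (Decidable (adjB a b = true))

/-! ### The gadget -/

theorem wedge {D0 D1 D4 D5 w01 w04 w12 w15 w16 w45 w56 u1 u2 v5 v6 : ℝ} (h01 : w01 ≠ 0)
    (h45 : w45 ≠ 0) (h16 : w16 ≠ 0) (hu2 : u2 ≠ 0) (hv5 : v5 ≠ 0)
    {x0 x1 x2 x4 x5 x6 y0 y1 y2 y4 y5 y6 : ℝ} (hv6 : v6 ≠ 0)
    (ex0 : D0 * x0 + w01 * x1 + w04 * x4 = 0) (ex4 : w04 * x0 + D4 * x4 + w45 * x5 = 0)
    (ex1 : w01 * x0 + D1 * x1 + w12 * x2 + w15 * x5 + w16 * x6 = 0)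
    (ex5 : w15 * x1 + w45 * x4 + D5 * x5 + w56 * x6 = 0)
    (lx1 : u1 * x1 + u2 * x2 = 0) (lx5 : v5 * x5 + v6 * x6 = 0)
    (ey0 : D0 * y0 + w01 * y1 + w04 * y4 = 0) (ey4 : w04 * y0 + D4 * y4 + w45 * y5 = 0)
    (ey1 : w01 * y0 + D1 * y1 + w12 * y2 + w15 * y5 + w16 * y6 = 0)
    (ey5 : w15 * y1 + w45 * y4 + D5 * y5 + w56 * y6 = 0)
    (ly1 : u1 * y1 + u2 * y2 = 0) (ly5 : v5 * y5 + v6 * y6 = 0) : x0 * y4 - x4 * y0 = 0 := by
  have S1 : w01 * (x1 * y0 - y1 * x0) + w45 * (x5 * y4 - y5 * x4) = 0 := by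
    linear_combination y0 * ex0 + y4 * ex4 - x0 * ey0 - x4 * ey4
  have a12 : x1 * y2 - x2 * y1 = 0 := by
    have : u2 * (x1 * y2 - x2 * y1) = 0 := by linear_combination x1 * ly1 - y1 * lx1
    exact (mul_eq_zero.1 this).resolve_left hu2
  have a56 : x5 * y6 - x6 * y5 = 0 := by
    have : v6 * (x5 * y6 - x6 * y5) = 0 := by linear_combination x5 * ly5 - y5 * lx5
    exact (mul_eq_zero.1 this).resolve_left hv6
  have a16 : x1 * y6 - x6 * y1 = 0 := by
    have : w16 * (x1 * y6 - x6 * y1) = 0 := by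
      linear_combination x1 * ey1 + x5 * ey5 - y1 * ex1 - y5 * ex5 - S1 - w12 * a12 - w56 * a56
    exact (mul_eq_zero.1 this).resolve_left h16
  have a15 : x1 * y5 - x5 * y1 = 0 := by
    have : v5 * (x1 * y5 - x5 * y1) = 0 := by
      linear_combination x1 * ly5 - y1 * lx5 - v6 * a16
    exact (mul_eq_zero.1 this).resolve_left hv5
  have a25 : x2 * y5 - x5 * y2 = 0 := by
    have : u2 * (x2 * y5 - x5 * y2) = 0 := by
      linear_combination y5 * lx1 - x5 * ly1 - u1 * a15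
    exact (mul_eq_zero.1 this).resolve_left hu2
  have a26 : x2 * y6 - x6 * y2 = 0 := by
    have : u2 * (x2 * y6 - x6 * y2) = 0 := by
      linear_combination y6 * lx1 - x6 * ly1 - u1 * a16
    exact (mul_eq_zero.1 this).resolve_left hu2
  have : w01 * w45 * (x0 * y4 - x4 * y0) = 0 := by
    linear_combination (w45 * y4) * ex1 - (D1 * x1 + w12 * x2 + w15 * x5 + w16 * x6) * ey5 -
      (w01 * y0) * ex5 + (w15 * x1 + D5 * x5 + w56 * x6) * ey1 + D1 * D5 * a15 + D1 * w56 * a16 -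
      w12 * w15 * a12 + w12 * D5 * a25 + w12 * w56 * a26 - w15 * w15 * a15 + w15 * w56 * a56 -
      w16 * w15 * a16 - w16 * D5 * a56
  exact (mul_eq_zero.1 this).resolve_left (mul_ne_zero h01 h45)

variable {A : Matrix V51 V51 ℝ}

theorem entry0 (hA : InS G51 A) {a b : V51} (h : a ≠ b) (h' : adjB a b = false) : A a b = 0 := by
  by_contra hne
  have := (hA.2 a b h).1 hne
  have h2 : adjB a b = true := this
  rw [h'] at h2
  exact Bool.noConfusion h2

theorem entry1 (hA : InS G51 A) {a b : V51} (h' : adjB a b = true) : A a b ≠ 0 := by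
  have h : a ≠ b := by
    intro e
    subst e
    rw [adjB_irr a] at h'
    exact Bool.noConfusion h'
  exact (hA.2 a b h).2 h'

theorem e0 (hA : InS G51 A) (g : Gd) {k l : Fin 8} (h : k ≠ l) (h' : edgeB k l = false) :
    A (Sum.inr (g, k)) (Sum.inr (g, l)) = 0 := by
  apply entry0 hA
  · intro e
    apply h
    have := Sum.inr.inj e
    exact (Prod.mk.inj this).2
  · show (decide (g = g) && edgeB k l) = false
    simp [h']

theorem e1 (hA : InS G51 A) (g : Gd) {k l : Fin 8} (h' : edgeB k l = true) :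
    A (Sum.inr (g, k)) (Sum.inr (g, l)) ≠ 0 := by
  apply entry1 hA
  show (decide (g = g) && edgeB k l) = true
  simp [h']

theorem mv_r (hA : InS G51 A) (x : V51 → ℝ) (g : Gd) (k : Fin 8) :
    A.mulVec x (Sum.inr (g, k)) = ∑ i, A (Sum.inr (g, k)) (Sum.inl i) * x (Sum.inl i) +
      ∑ l, A (Sum.inr (g, k)) (Sum.inr (g, l)) * x (Sum.inr (g, l)) := by
  show ∑ j, A (Sum.inr (g, k)) j * x j = _
  rw [Fintype.sum_sum_type, Fintype.sum_prod_type]
  congr 1
  refine Finset.sum_eq_single g (fun h _ hne => ?_) (fun h => absurd (Finset.mem_univ _) h)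
  refine Finset.sum_eq_zero (fun l _ => ?_)
  rw [entry0 hA (a := Sum.inr (g, k)) (b := Sum.inr (h, l)), zero_mul]
  · intro e
    exact hne (Prod.mk.inj (Sum.inr.inj e)).1.symm
  · show (decide (g = h) && edgeB k l) = false
    have : ¬ g = h := fun e => hne e.symm
    simp [this]

theorem mv_l (_hA : InS G51 A) (x : V51 → ℝ) (hx : ∀ i, x (Sum.inl i) = 0) (i : Fin 3) :
    A.mulVec x (Sum.inl i) = ∑ g : Gd, ∑ l, A (Sum.inl i) (Sum.inr (g, l)) * x (Sum.inr (g, l)) := by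
  show ∑ j, A (Sum.inl i) j * x j = _
  rw [Fintype.sum_sum_type, Fintype.sum_prod_type]
  have : ∑ j : Fin 3, A (Sum.inl i) (Sum.inl j) * x (Sum.inl j) = 0 :=
    Finset.sum_eq_zero (fun j _ => by rw [hx j, mul_zero])
  rw [this, zero_add]

/-- Vectors that vanish on the terminals and satisfy the equations at all gadget vertices. -/
def W (A : Matrix V51 V51 ℝ) : Submodule ℝ (V51 → ℝ) where
  carrier := {x | (∀ i, x (Sum.inl i) = 0) ∧ ∀ q, A.mulVec x (Sum.inr q) = 0}
  zero_mem' := ⟨fun _ => rfl, fun q => by rw [Matrix.mulVec_zero]; rfl⟩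
  add_mem' := by
    rintro x y ⟨h1, h2⟩ ⟨h3, h4⟩
    refine ⟨fun i => ?_, fun q => ?_⟩
    · show x _ + y _ = 0
      rw [h1, h3, add_zero]
    · rw [Matrix.mulVec_add]
      show A.mulVec x _ + A.mulVec y _ = 0
      rw [h2, h4, add_zero]
  smul_mem' := by
    rintro c x ⟨h1, h2⟩
    refine ⟨fun i => ?_, fun q => ?_⟩
    · show c * x _ = 0
      rw [h1, mul_zero]
    · rw [Matrix.mulVec_smul]
      show c * A.mulVec x _ = 0
      rw [h2, mul_zero]

theorem rowW (hA : InS G51 A) {x : V51 → ℝ} (hx : x ∈ W A) (g : Gd) (k : Fin 8) :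
    ∑ l, A (Sum.inr (g, k)) (Sum.inr (g, l)) * x (Sum.inr (g, l)) = 0 := by
  have h := hx.2 (g, k)
  rw [mv_r hA] at h
  have : ∑ i : Fin 3, A (Sum.inr (g, k)) (Sum.inl i) * x (Sum.inl i) = 0 :=
    Finset.sum_eq_zero (fun j _ => by rw [hx.1 j, mul_zero])
  rwa [this, zero_add] at h

end Pool.Agent.H78.Ft
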