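import Mathlib
import Pool.Agent.H78.Ft.Main

set_option autoImplicit false

namespace Pool.Agent.H78.Ft

open Finset Pool.Agent.R188.ZF

variable {A : Matrix V51 V51 ℝ}

/-- The part of the row of the terminal `i` in the gadget `g`. -/
def leak (A : Matrix V51 V51 ℝ) (i : Fin 3) (g : Gd) (x : V51 → ℝ) : ℝ :=
  ∑ l, A (Sum.inl i) (Sum.inr (g, l)) * x (Sum.inr (g, l))

theorem c0 (hA : InS G51 A) {i : Fin 3} {g : Gd} {k : Fin 8} (h' : toC i g k = false) :
    A (Sum.inl i) (Sum.inr (g, k)) = 0 := by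
  apply entry0 hA
  · intro e
    cases e
  · exact h'

theorem c1 (hA : InS G51 A) {i : Fin 3} {g : Gd} {k : Fin 8} (h' : toC i g k = true) :
    A (Sum.inl i) (Sum.inr (g, k)) ≠ 0 := entry1 hA h'

theorem force (hA : InS G51 A) {x : V51 → ℝ} (hx : x ∈ W A) (g : Gd)
    (h0 : x (Sum.inr (g, 0)) = 0) (h4 : x (Sum.inr (g, 4)) = 0) :
    ∀ k, x (Sum.inr (g, k)) = 0 := by
  have r0 := rowW hA hx g 0
  have r1 := rowW hA hx g 1
  have r2 := rowW hA hx g 2
  have r4 := rowW hA hx g 4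
  have r5 := rowW hA hx g 5
  have r6 := rowW hA hx g 6
  rw [Fin.sum_univ_eight] at r0 r1 r2 r4 r5 r6
  have x1 : x (Sum.inr (g, 1)) = 0 := by
    rw [h0, h4, e0 hA g (k := 0) (l := 2) (by decide) (by decide),
      e0 hA g (k := 0) (l := 3) (by decide) (by decide),
      e0 hA g (k := 0) (l := 5) (by decide) (by decide),
      e0 hA g (k := 0) (l := 6) (by decide) (by decide),
      e0 hA g (k := 0) (l := 7) (by decide) (by decide)] at r0
    have n := e1 hA g (k := 0) (l := 1) (by decide)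
    simpa [n] using r0
  have x5 : x (Sum.inr (g, 5)) = 0 := by
    rw [h0, h4, e0 hA g (k := 4) (l := 1) (by decide) (by decide),
      e0 hA g (k := 4) (l := 2) (by decide) (by decide),
      e0 hA g (k := 4) (l := 3) (by decide) (by decide),
      e0 hA g (k := 4) (l := 6) (by decide) (by decide),
      e0 hA g (k := 4) (l := 7) (by decide) (by decide)] at r4
    have n := e1 hA g (k := 4) (l := 5) (by decide)
    simpa [n] using r4
  have x6 : x (Sum.inr (g, 6)) = 0 := by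
    rw [h0, h4, x1, x5, e0 hA g (k := 5) (l := 2) (by decide) (by decide),
      e0 hA g (k := 5) (l := 3) (by decide) (by decide),
      e0 hA g (k := 5) (l := 7) (by decide) (by decide)] at r5
    have n := e1 hA g (k := 5) (l := 6) (by decide)
    simpa [n] using r5
  have x2 : x (Sum.inr (g, 2)) = 0 := by
    rw [h0, h4, x1, x5, x6, e0 hA g (k := 1) (l := 3) (by decide) (by decide),
      e0 hA g (k := 1) (l := 7) (by decide) (by decide)] at r1
    have n := e1 hA g (k := 1) (l := 2) (by decide)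
    simpa [n] using r1
  have x3 : x (Sum.inr (g, 3)) = 0 := by
    rw [h0, h4, x1, x2, x5, x6, e0 hA g (k := 2) (l := 7) (by decide) (by decide)] at r2
    have n := e1 hA g (k := 2) (l := 3) (by decide)
    simpa [n] using r2
  have x7 : x (Sum.inr (g, 7)) = 0 := by
    rw [h0, h4, x1, x2, x3, x5, x6] at r6
    have n := e1 hA g (k := 6) (l := 7) (by decide)
    simpa [n] using r6
  intro k
  fin_cases k
  · exact h0
  · exact x1
  · exact x2
  · exact x3
  · exact h4
  · exact x5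
  · exact x6
  · exact x7

theorem toC_t (g : Gd) : toC g.1 g 1 = true ∧ toC g.1 g 2 = true := by
  revert g; decide
theorem toC_s (g : Gd) : toC (g.1 + 1) g 5 = true ∧ toC (g.1 + 1) g 6 = true := by
  revert g; decide
theorem toC_t0 (g : Gd) : toC g.1 g 0 = false ∧ toC g.1 g 3 = false ∧ toC g.1 g 4 = false ∧
    toC g.1 g 5 = false ∧ toC g.1 g 6 = false ∧ toC g.1 g 7 = false := by
  revert g; decide
theorem toC_s0 (g : Gd) : toC (g.1 + 1) g 0 = false ∧ toC (g.1 + 1) g 1 = false ∧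
    toC (g.1 + 1) g 2 = false ∧ toC (g.1 + 1) g 3 = false ∧ toC (g.1 + 1) g 4 = false ∧
    toC (g.1 + 1) g 7 = false := by
  revert g; decide
theorem toC_u (g : Gd) : ∀ k, toC (g.1 + 2) g k = false := by
  revert g; decide

theorem leak_t (hA : InS G51 A) (g : Gd) (x : V51 → ℝ) :
    leak A g.1 g x = A (Sum.inl g.1) (Sum.inr (g, 1)) * x (Sum.inr (g, 1)) +
      A (Sum.inl g.1) (Sum.inr (g, 2)) * x (Sum.inr (g, 2)) := by
  obtain ⟨a0, a3, a4, a5, a6, a7⟩ := toC_t0 g
  unfold leak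
  rw [Fin.sum_univ_eight, c0 hA a0, c0 hA a3, c0 hA a4, c0 hA a5, c0 hA a6, c0 hA a7]
  ring

theorem leak_s (hA : InS G51 A) (g : Gd) (x : V51 → ℝ) :
    leak A (g.1 + 1) g x = A (Sum.inl (g.1 + 1)) (Sum.inr (g, 5)) * x (Sum.inr (g, 5)) +
      A (Sum.inl (g.1 + 1)) (Sum.inr (g, 6)) * x (Sum.inr (g, 6)) := by
  obtain ⟨a0, a1, a2, a3, a4, a7⟩ := toC_s0 g
  unfold leak
  rw [Fin.sum_univ_eight, c0 hA a0, c0 hA a1, c0 hA a2, c0 hA a3, c0 hA a4, c0 hA a7]
  ring

theorem leak_u (hA : InS G51 A) (g : Gd) (x : V51 → ℝ) : leak A (g.1 + 2) g x = 0 := by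
  unfold leak
  exact Finset.sum_eq_zero (fun l _ => by rw [c0 hA (toC_u g l), zero_mul])

theorem wedgeW (hA : InS G51 A) (g : Gd) {x y : V51 → ℝ} (hx : x ∈ W A) (hy : y ∈ W A)
    (lx : ∀ i, leak A i g x = 0) (ly : ∀ i, leak A i g y = 0) :
    x (Sum.inr (g, 0)) * y (Sum.inr (g, 4)) - x (Sum.inr (g, 4)) * y (Sum.inr (g, 0)) = 0 := by
  have s : ∀ a b, A a b = A b a := fun a b => hA.1.apply b a
  have rows : ∀ z ∈ W A,
      (A (Sum.inr (g, 0)) (Sum.inr (g, 0)) * z (Sum.inr (g, 0)) +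
        A (Sum.inr (g, 0)) (Sum.inr (g, 1)) * z (Sum.inr (g, 1)) +
        A (Sum.inr (g, 0)) (Sum.inr (g, 4)) * z (Sum.inr (g, 4)) = 0) ∧
      (A (Sum.inr (g, 0)) (Sum.inr (g, 4)) * z (Sum.inr (g, 0)) +
        A (Sum.inr (g, 4)) (Sum.inr (g, 4)) * z (Sum.inr (g, 4)) +
        A (Sum.inr (g, 4)) (Sum.inr (g, 5)) * z (Sum.inr (g, 5)) = 0) ∧
      (A (Sum.inr (g, 0)) (Sum.inr (g, 1)) * z (Sum.inr (g, 0)) +
        A (Sum.inr (g, 1)) (Sum.inr (g, 1)) * z (Sum.inr (g, 1)) +
        A (Sum.inr (g, 1)) (Sum.inr (g, 2)) * z (Sum.inr (g, 2)) +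
        A (Sum.inr (g, 1)) (Sum.inr (g, 5)) * z (Sum.inr (g, 5)) +
        A (Sum.inr (g, 1)) (Sum.inr (g, 6)) * z (Sum.inr (g, 6)) = 0) ∧
      (A (Sum.inr (g, 1)) (Sum.inr (g, 5)) * z (Sum.inr (g, 1)) +
        A (Sum.inr (g, 4)) (Sum.inr (g, 5)) * z (Sum.inr (g, 4)) +
        A (Sum.inr (g, 5)) (Sum.inr (g, 5)) * z (Sum.inr (g, 5)) +
        A (Sum.inr (g, 5)) (Sum.inr (g, 6)) * z (Sum.inr (g, 6)) = 0) := by
    intro z hz
    have r0 := rowW hA hz g 0
    have r1 := rowW hA hz g 1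
    have r4 := rowW hA hz g 4
    have r5 := rowW hA hz g 5
    rw [Fin.sum_univ_eight] at r0 r1 r4 r5
    rw [e0 hA g (k := 0) (l := 2) (by decide) (by decide),
      e0 hA g (k := 0) (l := 3) (by decide) (by decide),
      e0 hA g (k := 0) (l := 5) (by decide) (by decide),
      e0 hA g (k := 0) (l := 6) (by decide) (by decide),
      e0 hA g (k := 0) (l := 7) (by decide) (by decide)] at r0
    rw [e0 hA g (k := 4) (l := 1) (by decide) (by decide),
      e0 hA g (k := 4) (l := 2) (by decide) (by decide),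
      e0 hA g (k := 4) (l := 3) (by decide) (by decide),
      e0 hA g (k := 4) (l := 6) (by decide) (by decide),
      e0 hA g (k := 4) (l := 7) (by decide) (by decide),
      s (Sum.inr (g, 4)) (Sum.inr (g, 0))] at r4
    rw [e0 hA g (k := 1) (l := 3) (by decide) (by decide),
      e0 hA g (k := 1) (l := 4) (by decide) (by decide),
      e0 hA g (k := 1) (l := 7) (by decide) (by decide),
      s (Sum.inr (g, 1)) (Sum.inr (g, 0))] at r1
    rw [e0 hA g (k := 5) (l := 0) (by decide) (by decide),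
      e0 hA g (k := 5) (l := 2) (by decide) (by decide),
      e0 hA g (k := 5) (l := 3) (by decide) (by decide),
      e0 hA g (k := 5) (l := 7) (by decide) (by decide),
      s (Sum.inr (g, 5)) (Sum.inr (g, 1)), s (Sum.inr (g, 5)) (Sum.inr (g, 4))] at r5
    refine ⟨?_, ?_, ?_, ?_⟩
    · linear_combination r0
    · linear_combination r4
    · linear_combination r1
    · linear_combination r5
  obtain ⟨x0, x4, x1, x5⟩ := rows x hx
  obtain ⟨y0, y4, y1, y5⟩ := rows y hy
  have lx1 := lx g.1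
  have lx5 := lx (g.1 + 1)
  have ly1 := ly g.1
  have ly5 := ly (g.1 + 1)
  rw [leak_t hA] at lx1 ly1
  rw [leak_s hA] at lx5 ly5
  exact wedge (e1 hA g (by decide)) (e1 hA g (by decide)) (e1 hA g (by decide))
    (c1 hA (toC_t g).2) (c1 hA (toC_s g).1) (c1 hA (toC_s g).2) x0 x4 x1 x5 lx1 lx5
    y0 y4 y1 y5 ly1 ly5

/-- The restriction of a vector to one gadget. -/
def res (g : Gd) (x : V51 → ℝ) : V51 → ℝ
  | Sum.inl _ => 0
  | Sum.inr (h, l) => if h = g then x (Sum.inr (h, l)) else 0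

theorem res_mem (hA : InS G51 A) {x : V51 → ℝ} (hx : x ∈ W A) (g : Gd) : res g x ∈ W A := by
  refine ⟨fun i => rfl, ?_⟩
  rintro ⟨h, k⟩
  rw [mv_r hA]
  have h1 : ∑ i : Fin 3, A (Sum.inr (h, k)) (Sum.inl i) * res g x (Sum.inl i) = 0 :=
    Finset.sum_eq_zero (fun i _ => by
      show A (Sum.inr (h, k)) (Sum.inl i) * 0 = 0
      rw [mul_zero])
  rw [h1, zero_add]
  by_cases e : h = g
  · subst e
    rw [← rowW hA hx h k]
    refine Finset.sum_congr rfl (fun l _ => ?_)
    show _ * (if h = h then x (Sum.inr (h, l)) else 0) = _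
    rw [if_pos rfl]
  · refine Finset.sum_eq_zero (fun l _ => ?_)
    show _ * (if h = g then x (Sum.inr (h, l)) else 0) = 0
    rw [if_neg e, mul_zero]

theorem mv_res (hA : InS G51 A) (x : V51 → ℝ) (g : Gd) (i : Fin 3) :
    A.mulVec (res g x) (Sum.inl i) = leak A i g x := by
  rw [mv_l hA _ (fun _ => rfl)]
  unfold leak
  rw [Finset.sum_eq_single g]
  · refine Finset.sum_congr rfl (fun l _ => ?_)
    show _ * (if g = g then x (Sum.inr (g, l)) else 0) = _
    rw [if_pos rfl]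
  · intro h _ e
    refine Finset.sum_eq_zero (fun l _ => ?_)
    show _ * (if h = g then x (Sum.inr (h, l)) else 0) = 0
    rw [if_neg e, mul_zero]
  · intro h
    exact absurd (Finset.mem_univ _) h

end Pool.Agent.H78.Ft
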