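import Mathlib
import Pool.Agent.H78.Ft.Part2

set_option autoImplicit false

namespace Pool.Agent.H78.Ft

open Finset Pool.Agent.R188.ZF Module

variable {A : Matrix V51 V51 ℝ}

/-- The values at the terminals. -/
def piL : (V51 → ℝ) →ₗ[ℝ] (Fin 3 → ℝ) where
  toFun x := fun i => x (Sum.inl i)
  map_add' _ _ := rfl
  map_smul' _ _ := rfl

/-- The values of `A x` at the terminals. -/
def lamL (A : Matrix V51 V51 ℝ) : (V51 → ℝ) →ₗ[ℝ] (Fin 3 → ℝ) where
  toFun x := fun i => A.mulVec x (Sum.inl i)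
  map_add' x y := by rw [Matrix.mulVec_add]; rfl
  map_smul' c x := by rw [Matrix.mulVec_smul]; rfl

/-- The values at the vertices 0 and 4 of the gadget `g`. -/
def rL (g : Gd) : (V51 → ℝ) →ₗ[ℝ] (Fin 2 → ℝ) where
  toFun x := ![x (Sum.inr (g, 0)), x (Sum.inr (g, 4))]
  map_add' x y := by ext i; fin_cases i <;> rfl
  map_smul' c x := by ext i; fin_cases i <;> rfl

/-- The space of leaks. -/
def Lk (A : Matrix V51 V51 ℝ) : Submodule ℝ (Fin 3 → ℝ) :=
  LinearMap.range ((lamL A).domRestrict (W A))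

theorem ker_le (hA : InS G51 A) :
    finrank ℝ (LinearMap.ker A.mulVecLin) + 2 * finrank ℝ (Lk A) ≤ finrank ℝ (W A) + 3 := by
  set K : Submodule ℝ (V51 → ℝ) := LinearMap.ker A.mulVecLin with hK
  have hker : ∀ x ∈ K, A.mulVec x = 0 := by
    intro x hx
    simpa [hK] using hx
  have hker' : ∀ x, A.mulVec x = 0 → x ∈ K := by
    intro x hx
    simpa [hK] using hx
  have h1 := LinearMap.finrank_range_add_finrank_ker (piL.domRestrict K)
  have h2 := LinearMap.finrank_range_add_finrank_ker ((lamL A).domRestrict (W A))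
  have h3 : finrank ℝ (LinearMap.ker (piL.domRestrict K)) ≤
      finrank ℝ (LinearMap.ker ((lamL A).domRestrict (W A))) := by
    rw [← Submodule.finrank_map_subtype_eq K, ← Submodule.finrank_map_subtype_eq (W A)]
    apply Submodule.finrank_mono
    rintro x ⟨⟨y, hy⟩, hy2, rfl⟩
    have hy3 : ∀ i, y (Sum.inl i) = 0 := fun i => by
      have := LinearMap.mem_ker.1 hy2
      exact congrFun this i
    have hy4 : y ∈ W A := ⟨hy3, fun q => by rw [hker y hy]; rfl⟩
    refine ⟨⟨y, hy4⟩, ?_, rfl⟩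
    show _ = _
    funext i
    show A.mulVec y (Sum.inl i) = 0
    rw [hker y hy]
    rfl
  have h4 : finrank ℝ (LinearMap.range (piL.domRestrict K)) + finrank ℝ (Lk A) ≤ 3 := by
    have hd : Disjoint (LinearMap.range (piL.domRestrict K)) (Lk A) := by
      rw [Submodule.disjoint_def]
      rintro v ⟨⟨y, hy⟩, hy2⟩ ⟨⟨x, hx⟩, hx2⟩
      have e1 : ∀ i, v i = y (Sum.inl i) := fun i => (congrFun hy2 i).symm
      have e2 : ∀ i, v i = A.mulVec x (Sum.inl i) := fun i => (congrFun hx2 i).symm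
      have e3 : y ⬝ᵥ A.mulVec x = 0 := by
        rw [Matrix.dotProduct_mulVec, ← Matrix.mulVec_transpose, hA.1.eq, hker y hy,
          zero_dotProduct]
      have e4 : ∑ i : Fin 3, v i * v i = 0 := by
        have : y ⬝ᵥ A.mulVec x = ∑ i : Fin 3, y (Sum.inl i) * A.mulVec x (Sum.inl i) := by
          show ∑ j, y j * A.mulVec x j = _
          rw [Fintype.sum_sum_type]
          have : ∑ q : Gd × Fin 8, y (Sum.inr q) * A.mulVec x (Sum.inr q) = 0 :=
            Finset.sum_eq_zero (fun q _ => by rw [hx.2 q, mul_zero])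
          rw [this, add_zero]
        rw [this] at e3
        rw [← e3]
        exact Finset.sum_congr rfl (fun i _ => by rw [← e1 i, ← e2 i])
      have e5 := (Finset.sum_eq_zero_iff_of_nonneg (fun i _ => mul_self_nonneg (v i))).1 e4
      funext i
      exact mul_self_eq_zero.1 (e5 i (Finset.mem_univ i))
    have := Submodule.finrank_add_finrank_le_of_disjoint hd
    simpa using this
  have h5 : finrank ℝ (LinearMap.range ((lamL A).domRestrict (W A))) = finrank ℝ (Lk A) := rfl
  omega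

theorem W_le (hA : InS G51 A) :
    finrank ℝ (W A) ≤ ∑ g : Gd, finrank ℝ ((W A).map (rL g)) := by
  let F : W A →ₗ[ℝ] (∀ g : Gd, (W A).map (rL g)) :=
    LinearMap.pi (fun g => ((rL g).domRestrict (W A)).codRestrict ((W A).map (rL g))
      (fun x => ⟨x.1, x.2, rfl⟩))
  have hF : Function.Injective F := by
    rw [← LinearMap.ker_eq_bot, LinearMap.ker_eq_bot']
    rintro ⟨x, hx⟩ h
    have h1 : ∀ g : Gd, rL g x = 0 := by
      intro g
      have := congrFun h g
      exact congrArg Subtype.val this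
    apply Subtype.ext
    show x = 0
    funext v
    match v with
    | Sum.inl i => exact hx.1 i
    | Sum.inr (g, k) =>
      exact force hA hx g (congrFun (h1 g) 0) (congrFun (h1 g) 1) k
  have h2 := LinearMap.finrank_le_finrank_of_injective hF
  rwa [Module.finrank_pi_fintype] at h2

theorem map_le_two (g : Gd) : finrank ℝ ((W A).map (rL g)) ≤ 2 := by
  have := Submodule.finrank_le ((W A).map (rL g))
  simpa using this

theorem map_le_one (hA : InS G51 A) (g : Gd) (h : ∀ x ∈ W A, ∀ i, leak A i g x = 0) :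
    finrank ℝ ((W A).map (rL g)) ≤ 1 := by
  by_contra hc
  have h2 : finrank ℝ ((W A).map (rL g)) = finrank ℝ (Fin 2 → ℝ) := by
    have := map_le_two (A := A) g
    rw [Module.finrank_fin_fun]
    omega
  have h3 := Submodule.eq_top_of_finrank_eq h2
  have m1 : (![1, 0] : Fin 2 → ℝ) ∈ (W A).map (rL g) := by rw [h3]; trivial
  have m2 : (![0, 1] : Fin 2 → ℝ) ∈ (W A).map (rL g) := by rw [h3]; trivial
  obtain ⟨x, hx, ex⟩ := m1
  obtain ⟨y, hy, ey⟩ := m2
  have hw := wedgeW hA g hx hy (h x hx) (h y hy)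
  have x0 : x (Sum.inr (g, 0)) = 1 := congrFun ex 0
  have x4 : x (Sum.inr (g, 4)) = 0 := congrFun ex 1
  have y0 : y (Sum.inr (g, 0)) = 0 := congrFun ey 0
  have y4 : y (Sum.inr (g, 4)) = 1 := congrFun ey 1
  rw [x0, x4, y0, y4] at hw
  norm_num at hw

theorem leak_vec (hA : InS G51 A) (g : Gd) (h : ¬ ∀ x ∈ W A, ∀ i, leak A i g x = 0) :
    ∃ v ∈ Lk A, v ≠ 0 ∧ v (g.1 + 2) = 0 := by
  push Not at h
  obtain ⟨x, hx, i, hi⟩ := h
  refine ⟨fun j => leak A j g x, ⟨⟨res g x, res_mem hA hx g⟩, ?_⟩, ?_, ?_⟩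
  · funext j
    exact mv_res hA x g j
  · intro e
    exact hi (congrFun e i)
  · exact leak_u hA g x

theorem two_le (h : ∀ p : Fin 3, ∃ v ∈ Lk A, v ≠ 0 ∧ v (p + 2) = 0) : 2 ≤ finrank ℝ (Lk A) := by
  by_contra hc
  have h1 : finrank ℝ (Lk A) ≤ 1 := by omega
  obtain ⟨⟨v, hv⟩, hall⟩ := (finrank_le_one_iff).1 h1
  have hz : ∀ p : Fin 3, v (p + 2) = 0 := by
    intro p
    obtain ⟨w, hw, hne, h0⟩ := h p
    obtain ⟨c, hc⟩ := hall ⟨w, hw⟩
    have hc' : c • v = w := congrArg Subtype.val hc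
    have hc0 : c ≠ 0 := by
      rintro rfl
      apply hne
      rw [← hc', zero_smul]
    have : c * v (p + 2) = 0 := by
      rw [← h0, ← hc']
      rfl
    exact (mul_eq_zero.1 this).resolve_left hc0
  obtain ⟨w, hw, hne, -⟩ := h 0
  obtain ⟨c, hc⟩ := hall ⟨w, hw⟩
  have hc' : c • v = w := congrArg Subtype.val hc
  apply hne
  rw [← hc']
  funext i
  show c * v i = 0
  have : v i = 0 := by
    have h2 := hz (i + 1)
    have e : ∀ j : Fin 3, j + 1 + 2 = j := by decide
    rwa [e i] at h2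
  rw [this, mul_zero]

theorem one_le {v : Fin 3 → ℝ} (hv : v ∈ Lk A) (hne : v ≠ 0) : 1 ≤ finrank ℝ (Lk A) := by
  by_contra hc
  have h0 : finrank ℝ (Lk A) = 0 := by omega
  rw [Submodule.finrank_eq_zero] at h0
  rw [h0] at hv
  exact hne ((Submodule.mem_bot ℝ).1 hv)

theorem nullity_le (hA : InS G51 A) : nullity A ≤ 11 := by
  classical
  unfold nullity
  have h1 := ker_le hA
  have h2 := W_le hA
  have h3 := fun g => map_le_two (A := A) g
  have h4 := fun g => map_le_one hA g
  rw [Fintype.sum_prod_type, Fin.sum_univ_three, Fin.sum_univ_two, Fin.sum_univ_two,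
    Fin.sum_univ_two] at h2
  have a00 := h3 (0, 0)
  have a01 := h3 (0, 1)
  have a10 := h3 (1, 0)
  have a11 := h3 (1, 1)
  have a20 := h3 (2, 0)
  have a21 := h3 (2, 1)
  by_cases hall : ∀ p : Fin 3, ∃ c : Fin 2, ¬ ∀ x ∈ W A, ∀ i, leak A i (p, c) x = 0
  · have : 2 ≤ finrank ℝ (Lk A) := by
      apply two_le
      intro p
      obtain ⟨c, hc⟩ := hall p
      exact leak_vec hA (p, c) hc
    omega
  · push Not at hall
    obtain ⟨p, hp⟩ := hall
    have b0 := h4 (p, 0) (hp 0)
    have b1 := h4 (p, 1) (hp 1)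
    by_cases hany : ∃ g : Gd, ¬ ∀ x ∈ W A, ∀ i, leak A i g x = 0
    · obtain ⟨g, hg⟩ := hany
      obtain ⟨v, hv, hne, -⟩ := leak_vec hA g hg
      have h5 := one_le hv hne
      fin_cases p <;> simp only [Fin.zero_eta, Fin.mk_one, Fin.reduceFinMk] at b0 b1 <;> omega
    · have hno : ∀ g : Gd, ∀ x ∈ W A, ∀ i, leak A i g x = 0 := by
        intro g
        by_contra hg
        exact hany ⟨g, hg⟩
      have c00 := h4 (0, 0) (hno _)
      have c01 := h4 (0, 1) (hno _)
      have c10 := h4 (1, 0) (hno _)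
      have c11 := h4 (1, 1) (hno _)
      have c20 := h4 (2, 0) (hno _)
      have c21 := h4 (2, 1) (hno _)
      omega

end Pool.Agent.H78.Ft
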